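import Pool.Agent.helper97.FP.Defs

/-!
# Hilbert functions of double points in `ℙ¹ × ℙ¹`: the third row

The explicit functions `Psi n S e w`, equal to `Phi n S e` for `j ≠ 2` and to `third n S e w` for
`j = 2`.
-/

open Finset

namespace Pool.Agent.helper87.TR

open Pool.Agent.helper97.FP

variable {h : ℕ} (n : Fin h → ℕ) (S : Finset (Fin h)) (e w : ℕ)

/-- `l = #{k : n_k = 1}`. -/
def ell : ℕ := (univ.filter fun k => n k = 1).card

/-- `κ = #{k : n_k = 2}`. -/
def kap : ℕ := (univ.filter fun k => n k = 2).card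

/-- `u = #{k : n_k ≥ 2}`. -/
def you : ℕ := (univ.filter fun k => 2 ≤ n k).card

/-- `σ = #{k ∈ S : n_k = 2}`. -/
def sig : ℕ := (S.filter fun k => n k = 2).card

/-- `d = e + #{k ∉ S : n_k = 1}`. -/
def dee : ℕ := e + (univ.filter fun k => k ∉ S ∧ n k = 1).card

/-- The third row:
`min(i+1, 2d+2u-w) + min(i+1, l+2u-(σ-w)) + min(i+1, 2(l-d)+2u-(κ-σ))`. -/
def third (i : ℕ) : ℕ :=
  min (i + 1) (2 * dee n S e + 2 * you n - w) +
  min (i + 1) (ell n + 2 * you n - (sig n S - w)) +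
  min (i + 1) (2 * (ell n - dee n S e) + 2 * you n - (kap n - sig n S))

/-- `Ψ(i,j) = Φ(i,j)` for `j ≠ 2`, and `Ψ(i,2)` is the third row. -/
def Psi (i j : ℕ) : ℕ := if j = 2 then third n S e w i else Phi n S e i j

/-- Data: `(n, S, e)` admissible, `w ≤ σ`, and `w = 0` or `σ - w ≥ l - 2d`. -/
structure Adm (r : ℕ) : Prop where
  adm : Admissible n S e r
  le : w ≤ sig n S
  alt : w = 0 ∨ ell n ≤ 2 * dee n S e + (sig n S - w)

end Pool.Agent.helper87.TR
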