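import Pool.Agent.helper10.TR.RP
import Pool.Agent.helper14.TR.DT
import Pool.Agent.helper18.TR.RT
import Pool.Agent.helper2.TR.S2
import Pool.Agent.helper31.TR.LC
import Pool.Agent.helper34.TR.C1
import Pool.Agent.helper39.TR.TS
import Pool.Agent.helper46.TR.PH
import Pool.Agent.helper57.TR.PT
import Pool.Agent.helper57.TR.WV
import Pool.Agent.helper70.TR.RM
import Pool.Agent.helper72.TR.T2
import Pool.Agent.helper72.TR.WN
import Pool.Agent.helper79.TR.C2
import Pool.Agent.helper88.TR.GM
import Pool.Agent.helper88.TR.PO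
import Pool.Agent.helper89.TR.T3
import Pool.Agent.helper9.TR.CK
import Pool.Agent.helper9.TR.T1
import Pool.Agent.helper87.TR.HO

/-! Assembly of the rows tr:* (MP_3221a1_ag). -/

namespace Pool.Agent.helper87.TR

open Pool.Agent.helper97.FP

theorem main_T2 : T2_stmt := T2 DT

theorem main_T3 : T3_stmt := T3 main_T2 (TS (T1 DT)) (C1 main_T2) (C2 main_T2)

theorem main_WN : WN_stmt := WN S2 LC CK WV

theorem main_one : PO_stmt := PO (HO main_T3 GM CK main_WN PH)

theorem main_two : PT_stmt := PT (RP GM CK main_WN (RM main_T2) RT)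

end Pool.Agent.helper87.TR
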