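import Pool.Agent.helper87.TR.Defs
import Pool.Agent.helper97.FP.Main

/-!
# Rows tr:* (MP_3221a1_ag): the third row `j = 2` of the Hilbert function of double points of `ℙ¹ × ℙ¹`

Notation.  The points of `Y` lie on the lines (columns) `x = a k`, with `y`-coordinates in `B k`; columns with one
point: `L = Sing B` (landed), with two: `KK B`, with three or more: `TT B`.  A form of degree 2 in `y` is
`F : Fin 3 → ℂ[X]`, `F = F 0 + F 1 y + F 2 y²`.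

Plan.  `F` double at `Y` iff `F = τ G`, `τ = ∏_(K) (X - a) ∏_(T) (X - a)²`, `G` double at the points of `L`, and `G(a_k, b) = 0`
for `k ∈ K`, `b ∈ B k` (LC).  With a basis `Γ1 = Q1 - P1 y`, `Γ2 = Q2 - P2 y` of the forms of degree 1 in `y` through the
points of `L` (GM), `G = x0 Γ1² + x1 Γ1 Γ2 + x2 Γ2²` (S2).  So (WN) one has to find the dimension of `NN a c K δ m`: the
`x` with `deg x_q < m - qδ`, `x(a_k) ∈ ℂ c_k` for `k ∈ K`, `c_k` non-degenerate.  T1, DT, T2: reduced bases; C1, C2, T3: the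
restrictions on their degrees.  RM, RT, RP: everything occurs.

RULES.  Every row is a `Prop` below; please prove `theorem Pool.Agent.helper87.TR.<ROW> (h : <OTHER>_stmt) ... :
<ROW>_stmt` in `Pool/Agent/<seat>/TR/<ROW>.lean` (import this file; only the rows named in the docstring may be
hypotheses, in this order; the landed lemmas of `FP97` are free), land it, lock note DONE, one line to helper87.
No `convert`/`congr!`/`native_decide`, no double quotes.  Auxiliary lemmas: names beginning with the row name.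
Useful in `FP97` (files `Pool/Agent/helper97/FP/*.lean`): `prod_pow_dvd`, `natDegree_prod_pow`, `monic_prod_pow`,
`sq_dvd_iff`, `finrank_degreeLT`, `mem_degreeLT_mul`, `finrank_mults`, `natDegree_le_of_mem`, `eq_zero_of_mem_zero`.
-/

namespace Pool.Agent.helper87.TR

open Polynomial Finset Module FP97
open Pool.Agent.helper97.FP

/-! ### the modules -/

/-- `x : Fin 3 → ℂ[X]` with `deg x_q < m - q δ` and `x(a_k) ∈ ℂ c_k` for `k ∈ K` -/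
def NN {ι : Type} (a : ι → ℂ) (c : ι → Fin 3 → ℂ) (K : Finset ι) (δ m : ℕ) : Submodule ℂ (Fin 3 → ℂ[X]) where
  carrier := {x | (∀ q : Fin 3, x q ∈ degreeLT ℂ (m - (q : ℕ) * δ)) ∧
    ∀ k ∈ K, ∃ s : ℂ, ∀ q, (x q).eval (a k) = s * c k q}
  add_mem' := by
    rintro x y ⟨hx1, hx2⟩ ⟨hy1, hy2⟩
    refine ⟨fun q => add_mem (hx1 q) (hy1 q), fun k hk => ?_⟩
    obtain ⟨s, hs⟩ := hx2 k hk
    obtain ⟨t, ht⟩ := hy2 k hk
    exact ⟨s + t, fun q => by rw [Pi.add_apply, eval_add, hs, ht]; ring⟩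
  zero_mem' := ⟨fun q => zero_mem _, fun k _ => ⟨0, fun q => by simp⟩⟩
  smul_mem' := by
    rintro z x ⟨hx1, hx2⟩
    refine ⟨fun q => Submodule.smul_mem _ _ (hx1 q), fun k hk => ?_⟩
    obtain ⟨s, hs⟩ := hx2 k hk
    exact ⟨z * s, fun q => by rw [Pi.smul_apply, eval_smul, hs, smul_eq_mul]; ring⟩

/-- a reduced basis, of degrees `g` -/
structure Good {ι : Type} (a : ι → ℂ) (c : ι → Fin 3 → ℂ) (K : Finset ι) (δ : ℕ)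
    (F : Fin 3 → Fin 3 → ℂ[X]) (g : Fin 3 → ℕ) : Prop where
  mem : ∀ i, F i ∈ NN a c K δ (g i + 1)
  det : (Matrix.of F).det ≠ 0
  sum : g 0 + g 1 + g 2 = 3 * δ + 2 * K.card

/-- ROW tr:DT (medium).  (1) `x i q = C (s_i c_q) + (X - a) x'` for all three rows, expand the determinant
(`Matrix.det_fin_three`, `ring`): it is divisible by `(X - a)²`; then `FP97.prod_pow_dvd`.  (2) Each of the six products
has degree `≤ m0 + m1 + m2 - 3 - 3δ` (a product with `x i q`, `m i ≤ q δ`, is 0). -/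
def DT_stmt : Prop := ∀ (ι : Type) (a : ι → ℂ) (c : ι → Fin 3 → ℂ) (K : Finset ι) (δ : ℕ), Set.InjOn a K →
  ∀ (x : Fin 3 → Fin 3 → ℂ[X]) (m : Fin 3 → ℕ), (∀ i, x i ∈ NN a c K δ (m i)) →
    (∏ k ∈ K, (X - C (a k)) ^ 2) ∣ (Matrix.of x).det ∧
    (Matrix.of x).det ∈ degreeLT ℂ (m 0 + m 1 + m 2 - 2 - 3 * δ)

/-- ROW tr:T2 (medium, long; hyp `DT_stmt`).  By DT, `det F = z ∏ (X - a_k)²`, `z` a non-zero constant (degree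
`≤ Σ g - 3δ = 2 #K`).  Cramer: `ρ_0 = det(x, F1, F2)/det F` etc. is a polynomial by DT, of degree `< m - g_0`
(`m + (g1 + 1) + (g2 + 1) - 2 - 3δ - 2 #K = m - g0`).  Conversely `ρ_i ∈ degreeLT (m - g_i)` gives an element of `NN`, and
`ρ` is unique: `NN` is linearly equivalent to `Π degreeLT (m - g_i)`. -/
def T2_stmt : Prop := ∀ (ι : Type) (a : ι → ℂ) (c : ι → Fin 3 → ℂ) (K : Finset ι) (δ : ℕ), Set.InjOn a K →
  ∀ (F : Fin 3 → Fin 3 → ℂ[X]) (g : Fin 3 → ℕ), Good a c K δ F g →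
    (∀ m, ∀ x ∈ NN a c K δ m, ∃ ρ : Fin 3 → ℂ[X], (∀ i, ρ i ∈ degreeLT ℂ (m - g i)) ∧
      ∀ q, x q = ρ 0 * F 0 q + ρ 1 * F 1 q + ρ 2 * F 2 q) ∧
    ∀ m, finrank ℂ (NN a c K δ m) = (m - g 0) + (m - g 1) + (m - g 2)

/-- ROW tr:T1 (medium, long; hyp `DT_stmt`).  Induction on `K`.  `K = ∅`: `F i = e_i`, `g i = i δ`, `y = 0`.  New `k`: as in T2
`det F = z ∏_(K) (X - a)²`, so `det F (a_k) ≠ 0` and `c_k = ∑ γ_i F_i(a_k)`, `γ ≠ 0`.  Let `j` be the index with `γ_j ≠ 0` and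
`g_j` maximal.  New basis: `F'_j = ∑ γ_i F_i` (degree `g_j`), `F'_i = (X - a_k) F_i` (degree `g_i + 1`) for `i ≠ j`; the new
determinant is `γ_j (X - a_k)² det F`; `y'_j = y_j + 1`. -/
def T1_stmt : Prop := ∀ (ι : Type) (a : ι → ℂ) (c : ι → Fin 3 → ℂ) (K : Finset ι) (δ : ℕ), Set.InjOn a K →
  (∀ k ∈ K, c k ≠ 0) → ∃ (F : Fin 3 → Fin 3 → ℂ[X]) (g y : Fin 3 → ℕ), Good a c K δ F g ∧
    y 0 + y 1 + y 2 = K.card ∧ ∀ i : Fin 3, g i + y i = K.card + (i : ℕ) * δ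

/-- ROW tr:TS (short, medium; hyp `T1_stmt`).  Permute the `F_i` so that the `g_i` increase (the determinant is multiplied
by a sign). -/
def TS_stmt : Prop := ∀ (ι : Type) (a : ι → ℂ) (c : ι → Fin 3 → ℂ) (K : Finset ι) (δ : ℕ), Set.InjOn a K →
  (∀ k ∈ K, c k ≠ 0) → ∃ (F : Fin 3 → Fin 3 → ℂ[X]) (g : Fin 3 → ℕ), Good a c K δ F g ∧
    g 0 ≤ g 1 ∧ g 1 ≤ g 2 ∧ ∀ i : Fin 3, g i ≤ K.card + (i : ℕ) * δ

/-- ROW tr:C1 (medium; hyp `T2_stmt`).  If `K.card < g 1`: the element `τ e_0`, `τ = ∏ (X - a_k)`, of `NN (#K + 1)` is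
`ρ F 0` by T2, so `F 0 = (f, 0, 0)`, `f ≠ 0`; `f(a_k) e_0 ∈ ℂ c_k`, `c_k` non-degenerate, so `f(a_k) = 0` for all `k`, and
`#K ≤ deg f ≤ g 0`. -/
def C1_stmt : Prop := ∀ (ι : Type) (a : ι → ℂ) (c : ι → Fin 3 → ℂ) (K : Finset ι) (δ : ℕ), Set.InjOn a K →
  (∀ k ∈ K, c k 1 ^ 2 ≠ 4 * c k 0 * c k 2) → ∀ (F : Fin 3 → Fin 3 → ℂ[X]) (g : Fin 3 → ℕ), Good a c K δ F g →
    g 0 ≤ g 1 → g 1 ≤ g 2 → g 1 ≤ K.card ∨ K.card ≤ g 0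

/-- ROW tr:C2 (medium; hyp `T2_stmt`).  `H = {k ∈ K : c_k2 = 0}`.  (1) Some `F i 2` is not 0 and vanishes at the `a_k`,
`k ∈ H`: `#H + 2δ ≤ g_i ≤ g 2`.  (2) If `#K + δ < g 2`, then `τ e_0` (in `NN (#K + 1)`) and `τ e_1` (in `NN (#K + δ + 1)`) are
combinations of `F 0`, `F 1` (T2), hence `F 0 2 = F 1 2 = 0`; `D = F 0 0 * F 1 1 - F 0 1 * F 1 0` is not 0 (`det F = D * F 2 2`),
vanishes at `a_k`, `k ∈ K`, doubly if `k ∉ H`, so `#H + 2 (#K - #H) ≤ deg D ≤ g 0 + g 1 - δ`. -/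
def C2_stmt : Prop := ∀ (ι : Type) (a : ι → ℂ) (c : ι → Fin 3 → ℂ) (K : Finset ι) (δ : ℕ), Set.InjOn a K →
  (∀ k ∈ K, c k ≠ 0) → ∀ (F : Fin 3 → Fin 3 → ℂ[X]) (g : Fin 3 → ℕ), Good a c K δ F g →
    g 0 ≤ g 1 → g 1 ≤ g 2 → 2 * δ + (K.filter fun k => c k 2 = 0).card ≤ g 2 ∧
    (K.card + δ < g 2 → g 2 ≤ 2 * δ + (K.filter fun k => c k 2 = 0).card)

/-- ROW tr:T3 (short; hyps `T2_stmt TS_stmt C1_stmt C2_stmt`).  `w = #K - g 0`, `t = g 2 - 2δ`; `omega`. -/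
def T3_stmt : Prop := ∀ (ι : Type) (a : ι → ℂ) (c : ι → Fin 3 → ℂ) (K : Finset ι) (δ : ℕ), Set.InjOn a K →
  (∀ k ∈ K, c k 1 ^ 2 ≠ 4 * c k 0 * c k 2) → ∃ w t : ℕ, w ≤ t ∧ t ≤ K.card ∧ (w = 0 ∨ δ ≤ t - w) ∧
    (t = (K.filter fun k => c k 2 = 0).card ∨
      (δ ≤ K.card - t ∧ δ ≤ K.card - (K.filter fun k => c k 2 = 0).card)) ∧
    ∀ m, finrank ℂ (NN a c K δ m) =
      (m - (K.card - w)) + (m - (K.card + δ - (t - w))) + (m - (2 * δ + t))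

/-! ### the single columns -/

/-- `Γ1 = Q1 - P1 y`, `Γ2 = Q2 - P2 y` is a basis of the forms of degree 1 in `y` vanishing at the `(a k, β k)`, `k ∈ L` -/
structure Bas {ι : Type} (a β : ι → ℂ) (L : Finset ι) (d : ℕ) (P1 Q1 P2 Q2 : ℂ[X]) : Prop where
  dle : 2 * d ≤ L.card
  P1d : P1 ∈ degreeLT ℂ (d + 1)
  Q1d : Q1 ∈ degreeLT ℂ (d + 1)
  P2d : P2 ∈ degreeLT ℂ (L.card - d + 1)
  Q2d : Q2 ∈ degreeLT ℂ (L.card - d + 1)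
  one : ∀ k ∈ L, Q1.eval (a k) = β k * P1.eval (a k)
  two : ∀ k ∈ L, Q2.eval (a k) = β k * P2.eval (a k)
  det : P1 * Q2 - P2 * Q1 = ∏ k ∈ L, (X - C (a k))

/-- ROW tr:GM (medium, long).  `H = {k ∈ L : q(a_k) = β_k p(a_k)}`, `d = e + #(L \ H)`, `M = #L - d`.  The space of the
`(P, Q)`, `deg ≤ M`, `Q(a_k) = β_k P(a_k)` for `k ∈ L`, has dimension `≥ 2 (M + 1) - #L = #L - 2d + 2`.  Those with `p Q = q P`
are the `ρ (p, q)` (coprime), `ρ(a_k) = 0` for `k ∈ L \ H`, `deg ρ ≤ M - e`: dimension `≤ M - e + 1 - #(L \ H) = #L - 2d + 1`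
(`FP97.finrank_mults`).  So there is `(P2, Q2)` with `0 ≠ p Q2 - q P2`; it vanishes at the `a_k`, `k ∈ H`, and has degree
`≤ e + M = #H`; multiply `(P2, Q2)` by a constant.  (As in `FP97.exists_ref`.) -/
def GM_stmt : Prop := ∀ (ι : Type) (a β : ι → ℂ) (L : Finset ι) (p q : ℂ[X]) (d : ℕ), Set.InjOn a L → IsCoprime p q →
  d = max p.natDegree q.natDegree + (L.filter fun k => q.eval (a k) ≠ β k * p.eval (a k)).card → 2 * d ≤ L.card →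
  ∃ P2 Q2 : ℂ[X], Bas a β L d
    ((∏ k ∈ L.filter fun k => q.eval (a k) ≠ β k * p.eval (a k), (X - C (a k))) * p)
    ((∏ k ∈ L.filter fun k => q.eval (a k) ≠ β k * p.eval (a k), (X - C (a k))) * q) P2 Q2

/-- `F 0 + F 1 y + F 2 y²` vanishes to second order at `(x, b)` -/
def Db (F : Fin 3 → ℂ[X]) (x b : ℂ) : Prop :=
  (F 0).eval x + b * (F 1).eval x + b ^ 2 * (F 2).eval x = 0 ∧
  (derivative (F 0)).eval x + b * (derivative (F 1)).eval x + b ^ 2 * (derivative (F 2)).eval x = 0 ∧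
  (F 1).eval x + 2 * b * (F 2).eval x = 0

/-- `x0 Γ1² + x1 Γ1 Γ2 + x2 Γ2²` -/
noncomputable def Sy (P1 Q1 P2 Q2 : ℂ[X]) (x : Fin 3 → ℂ[X]) : Fin 3 → ℂ[X] :=
  ![x 0 * Q1 ^ 2 + x 1 * (Q1 * Q2) + x 2 * Q2 ^ 2,
    -(x 0 * (2 * P1 * Q1) + x 1 * (P1 * Q2 + P2 * Q1) + x 2 * (2 * P2 * Q2)),
    x 0 * P1 ^ 2 + x 1 * (P1 * P2) + x 2 * P2 ^ 2]

/-- ROW tr:S2 (medium, long).  `W = P1 Q2 - P2 Q1 = ∏_(L) (X - a_k)`.  (←) direct.  (→) With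
`φ_2 = G0 P2² + G1 P2 Q2 + G2 Q2²`, `φ_1 = G0 P1² + G1 P1 Q1 + G2 Q1²`, `φ = 2 G0 P1 P2 + G1 (P1 Q2 + P2 Q1) + 2 G2 Q1 Q2`: each
vanishes doubly at the `a_k`, `k ∈ L` (`Q_i(a_k) = β_k P_i(a_k)` and the three equations of `Db`), so is divisible by `W²`
(`FP97.prod_pow_dvd`, `FP97.sq_dvd_iff`), and `x0 = φ_2/W²`, `x1 = -φ/W²`, `x2 = φ_1/W²` satisfy `G = Sy x`
(`W² G = Sy (φ_2, -φ, φ_1)` is an identity).  Degrees: `deg φ_2 < N + 2 (#L - d)`, `deg φ < N + #L`, `deg φ_1 < N + 2d`, minus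
`2 #L`. -/
def S2_stmt : Prop := ∀ (ι : Type) (a β : ι → ℂ) (L : Finset ι) (d : ℕ) (P1 Q1 P2 Q2 : ℂ[X]), Set.InjOn a L →
  Bas a β L d P1 Q1 P2 Q2 →
  (∀ (G : Fin 3 → ℂ[X]) (N : ℕ), ((∀ q, G q ∈ degreeLT ℂ N) ∧ ∀ k ∈ L, Db G (a k) (β k)) ↔
    ∃ x : Fin 3 → ℂ[X], G = Sy P1 Q1 P2 Q2 x ∧ ∀ q : Fin 3, x q ∈ degreeLT ℂ (N - 2 * d - (q : ℕ) * (L.card - 2 * d))) ∧
  Function.Injective (Sy P1 Q1 P2 Q2)

/-! ### columns with more points -/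

/-- the columns with two points -/
def KK {h : ℕ} (B : Fin h → Finset ℂ) : Finset (Fin h) := univ.filter fun k => (B k).card = 2

/-- the columns with three points or more -/
def TT {h : ℕ} (B : Fin h → Finset ℂ) : Finset (Fin h) := univ.filter fun k => 3 ≤ (B k).card

/-- the forced factor -/
noncomputable def tau {h : ℕ} (a : Fin h → ℂ) (B : Fin h → Finset ℂ) : ℂ[X] :=
  (∏ k ∈ KK B, (X - C (a k))) * ∏ k ∈ TT B, (X - C (a k)) ^ 2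

/-- ROW tr:LC (medium, long).  At a column with at least two points `F(a_k, y)` is a polynomial of degree `≤ 2` in `y`
with two double zeros, so `F q (a_k) = 0`; with at least three points `F_x(a_k, y)` has three zeros, so
`(X - a_k)² ∣ F q`.  Divide by `tau`; `G` at `k ∈ L`: `tau(a_k) ≠ 0`; at `k ∈ K`: `F_x(a_k, b) = tau'(a_k) G(a_k, b)`,
`tau'(a_k) ≠ 0`. -/
def LC_stmt : Prop := ∀ (h : ℕ) (a β : Fin h → ℂ) (B : Fin h → Finset ℂ), Function.Injective a →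
  (∀ k, 1 ≤ (B k).card) → (∀ k ∈ Sing B, B k = {β k}) → ∀ F : Fin 3 → ℂ[X],
    (∀ k, ∀ b ∈ B k, Db F (a k) b) ↔ ∃ G : Fin 3 → ℂ[X], (∀ q, F q = tau a B * G q) ∧
      (∀ k ∈ Sing B, Db G (a k) (β k)) ∧
      ∀ k ∈ KK B, ∀ b ∈ B k, (G 0).eval (a k) + b * (G 1).eval (a k) + b ^ 2 * (G 2).eval (a k) = 0

/-- value at `(x, b)` of `c0 Γ1² + c1 Γ1 Γ2 + c2 Γ2²` -/
noncomputable def ev2 (P1 Q1 P2 Q2 : ℂ[X]) (c : Fin 3 → ℂ) (x b : ℂ) : ℂ :=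
  c 0 * (Q1.eval x - b * P1.eval x) ^ 2
    + c 1 * ((Q1.eval x - b * P1.eval x) * (Q2.eval x - b * P2.eval x))
    + c 2 * (Q2.eval x - b * P2.eval x) ^ 2

/-- ROW tr:CK (short, medium).  `W(x) ≠ 0`.  The two linear forms `z ↦ ev2 z x b`, `z ↦ ev2 z x b'` on `ℂ³` are independent:
their common zeros are the multiples of `(Γ2(b) Γ2(b'), -(Γ1(b) Γ2(b') + Γ1(b') Γ2(b)), Γ1(b) Γ1(b'))`
(`Γ1(b) Γ2(b') - Γ1(b') Γ2(b) = (b' - b) W(x)`), so of `c ≠ 0`.  (2): discriminant of this vector; `c2 = 0` iff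
`Γ1(b) Γ1(b') = 0`.  (3): existence of `c`. -/
def CK_stmt : Prop := ∀ (P1 Q1 P2 Q2 : ℂ[X]) (x b b' : ℂ), b ≠ b' →
  P1.eval x * Q2.eval x - P2.eval x * Q1.eval x ≠ 0 →
  (∀ c : Fin 3 → ℂ, c ≠ 0 → ev2 P1 Q1 P2 Q2 c x b = 0 → ev2 P1 Q1 P2 Q2 c x b' = 0 →
    (∀ z : Fin 3 → ℂ, (ev2 P1 Q1 P2 Q2 z x b = 0 ∧ ev2 P1 Q1 P2 Q2 z x b' = 0) ↔ ∃ s : ℂ, ∀ q, z q = s * c q) ∧
    c 1 ^ 2 ≠ 4 * c 0 * c 2 ∧
    (c 2 = 0 ↔ (Q1.eval x = b * P1.eval x ∨ Q1.eval x = b' * P1.eval x))) ∧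
  ∃ c : Fin 3 → ℂ, c ≠ 0 ∧ ev2 P1 Q1 P2 Q2 c x b = 0 ∧ ev2 P1 Q1 P2 Q2 c x b' = 0

/-- ROW tr:WV (medium).  Coefficients `v (m, q)` of `F q = ∑ v (m, q) X^m`: `WW a B i 2` is linearly equivalent to the
space of the `F`, `F q ∈ degreeLT (i + 1)`, double at all points (cf. `FP97.toP`); every submodule `U` of
`Fin 3 → ℂ[X]` consisting of exactly these `F` has the same dimension. -/
def WV_stmt : Prop := ∀ (h : ℕ) (a : Fin h → ℂ) (B : Fin h → Finset ℂ) (i : ℕ) (U : Submodule ℂ (Fin 3 → ℂ[X])),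
  (∀ F, F ∈ U ↔ (∀ q, F q ∈ degreeLT ℂ (i + 1)) ∧ ∀ k, ∀ b ∈ B k, Db F (a k) b) →
  finrank ℂ (WW a B i 2) = finrank ℂ U

/-- ROW tr:WN (medium, long; hyps `S2_stmt LC_stmt CK_stmt WV_stmt`).  `U` = image of `NN a c K δ m` under the injective
linear map `x ↦ tau * Sy x` (`δ = #L - 2d`, `m = i + 1 - (#K + 2 #T) - 2d`, `#K + 2 #T = deg tau`): LC, S2 with
`N = i + 1 - deg tau`, and at `k ∈ K`: `(Sy x)(a_k, b) = ev2 (x(a_k)) a_k b`, `W(a_k) = ∏_(L) (a_k - a_l) ≠ 0`, CK. -/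
def WN_stmt : Prop := ∀ (h : ℕ) (a β : Fin h → ℂ) (B : Fin h → Finset ℂ) (d : ℕ) (P1 Q1 P2 Q2 : ℂ[X])
  (c : Fin h → Fin 3 → ℂ), Function.Injective a → (∀ k, 1 ≤ (B k).card) → (∀ k ∈ Sing B, B k = {β k}) →
  Bas a β (Sing B) d P1 Q1 P2 Q2 →
  (∀ k ∈ KK B, c k ≠ 0 ∧ ∀ b ∈ B k, ev2 P1 Q1 P2 Q2 (c k) (a k) b = 0) → ∀ i : ℕ,
    finrank ℂ (WW a B i 2) = finrank ℂ (NN a c (KK B) ((Sing B).card - 2 * d)
      (i + 1 - ((KK B).card + 2 * (TT B).card) - 2 * d))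

/-! ### every configuration has data -/

/-- ROW tr:PH (medium).  `j ≤ 1`: the summands of `gam` agree.  `j ≥ 3`: both `gam - (i + 1)` are 0: the sum in `gam` is
`≤ 2 #{k ∈ S, n_k = 1} + 2σ + (κ - σ) + 2 #{n_k ≥ 3}`, and `∑ min(2, n_k) = l + 2κ + 2 #{n_k ≥ 3}`,
`#{k ∈ S, n_k = 1} = l - (d - e)`, `l - 2d ≤ κ - σ`. -/
def PH_stmt : Prop := ∀ (h : ℕ) (n : Fin h → ℕ) (S S' : Finset (Fin h)) (e i j : ℕ), (∀ k, 1 ≤ n k) →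
  (∀ k, n k ≠ 2 → (k ∈ S ↔ k ∈ S')) → 2 * dee n S e ≤ ell n → ell n - 2 * dee n S e ≤ kap n - sig n S →
  ell n - 2 * dee n S e ≤ kap n - sig n S' → j ≠ 2 → (j ≤ 1 ∨ ∑ k, min 2 (n k) ≤ i + 1) →
  Phi n S e i j = Phi n S' e i j

/-- ROW tr:HO (medium, long; hyps `T3_stmt GM_stmt CK_stmt WN_stmt PH_stmt`).  `exists_config`, `exists_ref`: `a`, `B`, `p`, `q`,
`n k = (B k).card`, `e = max deg`, `S0 = HS a B p q`, `main_aff` for `j ≠ 2`.  GM (`β` as in `exists_ref`), `Hit a B p q k` at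
`k ∈ Sing B` iff `q(a_k) = β_k p(a_k)`, `d = dee n S0 e`; CK(3): `c k`; CK(2): `c k 2 = 0` iff `k` is hit (the factor
`∏ (X - a)` of `P1`, `Q1` is not 0 at `a_k`); WN and T3: `w`, `t`.  If `t = σ(S0)`: `S = S0`; otherwise
`S = (S0 minus KK) ∪ U`, `U ⊆ KK`, `#U = t`, and PH. -/
def HO_stmt : Prop := ∀ Z : Finset (ℂ × ℂ), ∃ (h : ℕ) (n : Fin h → ℕ) (S : Finset (Fin h)) (e w : ℕ),
  Adm n S e w Z.card ∧ ∀ i j, (j ≤ 2 ∨ ∑ k, min 2 (n k) ≤ i + 1) →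
    (i + 1) * (j + 1) - finrank ℂ (DV (Z : Set (ℂ × ℂ)) i j) = Psi n S e w i j

/-- ROW tr:PO (short, medium; hyp `HO_stmt`).  As `FP97.part_one`. -/
def PO_stmt : Prop := ∀ (r : ℕ) (Y : Finset Point), Y.card = r →
  (∃ (h : ℕ) (n : Fin h → ℕ) (S : Finset (Fin h)) (e w : ℕ), Adm n S e w r ∧
    ∀ i j, (j ≤ 2 ∨ ∑ k, min 2 (n k) ≤ i + 1) → hilbert (doubleIdeal Y) i j = Psi n S e w i j) ∧
  (∃ (h : ℕ) (n : Fin h → ℕ) (S : Finset (Fin h)) (e w : ℕ), Adm n S e w r ∧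
    ∀ i j, (i ≤ 2 ∨ ∑ k, min 2 (n k) ≤ j + 1) → hilbert (doubleIdeal Y) i j = Psi n S e w j i)

/-! ### all data occur -/

/-- `m = max δ (min (σ - w) (w + δ))` -/
def mm (δ s w : ℕ) : ℕ := max δ (min (s - w) (w + δ))

/-- ROW tr:RM (medium, long; hyp `T2_stmt`).  `K = K1 ∪ K3` disjoint, `s = #K1`, `α = X^m + θ`, `τ1 = ∏_(K1)`, `τ3 = ∏_(K3)`;
`z1 = τ1 / α`, `z0 = -(τ1 % α)`, so `α z1 - z0 = τ1`, `deg z1 ≤ s - m` (`z1 = 0` if `s < m`), `deg z0 ≤ s + δ - m`.  Basis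
`τ3 (α, 1, 0)`, `τ3 (z0, z1, 0)`, `τ1 (A, 0, 1)` of degrees `#K3 + m`, `#K3 + s + δ - m`, `s + 2δ`, determinant `(τ1 τ3)²`;
T2.  `{m, s + δ - m} = {s - w, w + δ}`.  (`m = 0`: `α = 1 + θ ≠ 0`.) -/
def RM_stmt : Prop := ∀ (ι : Type) (a : ι → ℂ) (c : ι → Fin 3 → ℂ) (K K1 : Finset ι) (δ w : ℕ) (θ A : ℂ),
  Set.InjOn a K → K1 ⊆ K → w ≤ K1.card → (w = 0 ∨ δ ≤ K1.card - w) → 1 + θ ≠ 0 →
  (∀ k ∈ K1, c k = ![a k ^ mm δ K1.card w + θ, 1, 0]) → (∀ k ∈ K, k ∉ K1 → c k = ![A, 0, 1]) →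
  ∀ m, finrank ℂ (NN a c K δ m) =
    (m - (K.card - w)) + (m - (K.card + δ - (K1.card - w))) + (m - (2 * δ + K1.card))

/-- ROW tr:RT (short, medium).  `b ↦ ev2 c x b` is a polynomial of degree 2 with leading coefficient
`c0 p1² + c1 p1 p2 + c2 p2² ≠ 0` and discriminant `(c1² - 4 c0 c2) W(x)² ≠ 0`. -/
def RT_stmt : Prop := ∀ (P1 Q1 P2 Q2 : ℂ[X]) (x : ℂ) (c : Fin 3 → ℂ),
  P1.eval x * Q2.eval x - P2.eval x * Q1.eval x ≠ 0 → c 1 ^ 2 ≠ 4 * c 0 * c 2 →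
  c 0 * P1.eval x ^ 2 + c 1 * (P1.eval x * P2.eval x) + c 2 * P2.eval x ^ 2 ≠ 0 →
  ∃ b b' : ℂ, b ≠ b' ∧ ev2 P1 Q1 P2 Q2 c x b = 0 ∧ ev2 P1 Q1 P2 Q2 c x b' = 0

/-- ROW tr:RP (long; hyps `GM_stmt CK_stmt WN_stmt RM_stmt RT_stmt`).  `a k = k + 1`, `β k = a_k^e` for `k ∈ S`, `a_k^e + 1`
otherwise.  GM for `L = {n_k = 1}`, `p = 1`, `q = X^e`: `P1 = ∏_(L \ S) (X - a)`, `Q1 = X^e P1`, `P2`, `Q2`, `d = dee n S e`.  Let
`K1 = {k ∈ S : n_k = 2}`; choose `θ ≠ -1` with `(a_k^m + θ) P1(a_k) + P2(a_k) ≠ 0` for `k ∈ K1` (`P1(a_k) ≠ 0`, finitely many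
exceptions), `A ≠ 0` with `A P1(a_k)² + P2(a_k)² ≠ 0` for `n_k = 2`, `k ∉ S`.  `c k` as in RM; `B k` for `n_k = 2`: the two zeros
of RT; for `n_k ≠ 2`: `{a_k^e + t}` resp. `{a_k^e + t + 1}`, `0 ≤ t < n_k` (as in `FP97.part_two`).  Hits: for `n_k = 2` by
CK(2) (`c k 2 = 0` iff `k ∈ S`; `P1 = ∏ ..`, `Q1 = X^e P1`).  WN and RM; `omega`. -/
def RP_stmt : Prop := ∀ (r h : ℕ) (n : Fin h → ℕ) (S : Finset (Fin h)) (e w : ℕ), Adm n S e w r →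
  ∃ (a : Fin h → ℂ) (B : Fin h → Finset ℂ), Function.Injective a ∧ (∀ k, (B k).card = n k) ∧
    HS a B 1 (X ^ e) = S ∧ ∀ i, 3 * (i + 1) - finrank ℂ (WW a B i 2) = third n S e w i

/-- ROW tr:PT (medium; hyp `RP_stmt`).  As `FP97.part_two` (with `main_aff` for `j ≠ 2`). -/
def PT_stmt : Prop := ∀ (r h : ℕ) (n : Fin h → ℕ) (S : Finset (Fin h)) (e w : ℕ), Adm n S e w r →
  ∃ Y : Finset Point, Y.card = r ∧
    ∀ i j, (j ≤ 2 ∨ ∑ k, min 2 (n k) ≤ i + 1) → hilbert (doubleIdeal Y) i j = Psi n S e w i j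

end Pool.Agent.helper87.TR
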